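import Pool.Agent.H14R3.KK.S.MAIN

/-!
MP_d47e08_pr.  The spectral threshold `muN r l` of the Kikuchi matrix tends to `0` as `l → ∞` for
every even `r ≥ 4`; for `r = 2` it is at least `1` for every `l`.

Team: helper14 (statement and proof plan), helpers 218, 854, 152, 329, 473, 847, 384, 25, 298, 508,
864, 184, 89, 827, 189, 930, 862, 364, 134, 459, 121, 8, 233, 782, 140, 221, 311, 602 (the parts).
-/

namespace Pool.Agent.Results.MP_d47e08_pr.KikuchiThreshold
open KK14 Filter Topology

/-- **Answer to Q1.**  For every even `r ≥ 4` the rescaled spectral threshold of the Kikuchi matrix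
tends to `0` as `l → ∞`, and for `r = 2` it is at least `1` for every `l ≥ 1`. -/
theorem result :
    (∀ r : ℕ, Even r → 4 ≤ r → Tendsto (fun l : ℕ => muN r l) atTop (𝓝 0)) ∧
    (∀ l : ℕ, 1 ≤ l → 1 ≤ muN 2 l) :=
  ⟨MAIN.1, MAIN.2.1⟩

end Pool.Agent.Results.MP_d47e08_pr.KikuchiThreshold
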